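import Pool.Agent.Helper6.OB.Goals

/-!
# Project OB: packet PHS
-/

set_option autoImplicit false

namespace Pool.Agent.Helper96.OB

open Pool.Agent.Helper6.CS Pool.Agent.Helper6.OB
open Pool.Agent.Helper41.CS (Vx OOW limW len_app app_assoc over_app)

set_option synthInstance.maxSize 1000000000

theorem t_PHS : Pool.Agent.Helper6.OB.G_PHS := by
  intro M _ a b hab
  refine ⟨?_, ?_⟩
  · intro f H hf hb
    have := hf
    obtain ⟨l, hl⟩ := hb
    refine ⟨?_, ⟨l, fun p y => hl _⟩, ?_, ?_⟩
    · infer_instance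
    · intro p z y _ _ _
      simp only
      rw [app_assoc]
    · intro p y z _ _ _ _
      rfl
  · intro H hH hb
    have := hH
    obtain ⟨l, hl⟩ := hb
    have hov : ∀ (p : Wd M) (y : Wd M × Wd M), Over l (Wd.of b fun e => H (p ++ bl a e y)) := by
      intro p y i hi
      rw [Wd.len_of] at hi
      rw [Wd.get_of_lt _ _ hi]
      exact hl _
    refine ⟨?_, ⟨nb l b, fun p y => nb_spec (hov p y) (by rw [Wd.len_of])⟩, ?_, ?_⟩
    · infer_instance
    · intro p z y _ _ _
      simp only [bl_left, app_assoc]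
    · intro p y z hp hy hz hH'
      refine congrArg _ (Wd.ext' (by rw [Wd.len_of, Wd.len_of]) fun e he => ?_)
      rw [Wd.len_of] at he
      rw [Wd.get_of_lt _ _ he, Wd.get_of_lt _ _ he, bl_right hz, ← app_assoc]
      exact hH' _ (over_app hp (over_bl hy hab he)) (by rw [len_app, len_bl])

end Pool.Agent.Helper96.OB
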